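import Pool.Agent.E8helper20.CTM.StmA
import Pool.Agent.E8helper41.CTK3.Exl
import Pool.Agent.Y155.CT.Act
import Pool.Agent.Y737.CTK.Trf
import Pool.Agent.Y696.XL.Asm

/-!
# Project CTM, part M15: from the characters to the Selmer group over `K` and the rank
-/

set_option autoImplicit false
set_option linter.unusedSectionVars false
set_option linter.unusedVariables false

open scoped Classical

namespace Pool.Agent.E8helper98.CTM

open NumberField WeierstrassCurve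
open Pool.Agent.Y692.QS (Ei w nr)
open Pool.Agent.Y715.T.Gi Pool.Agent.Y715.T.Nr Pool.Agent.Y715.T.Df Pool.Agent.Y715.T.Ell
open Pool.Agent.Y715.T.Sel (root_ne)
open Pool.Agent.Y703.CT
open Pool.Agent.Y696.CTK (ED)
open Pool.Agent.XL6 (SelK SelH)
open Pool.Agent.Y155.CT (a_mul a_cont)
open Pool.Agent.Y48.CT.SEL (pr0 not_assoc_lam)
open Pool.Agent.E8helper41.CTK3 (cube_of_triv)
open Pool.Agent.E8helper20.CTM (S_TRFM)

variable {J : Type} [Fintype J] {π : J → Ei} {e : J → ZMod 3}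
variable {i₀ : QB} {hi : i₀ ^ 2 + i₀ + 1 = 0}

lemma c_ne {c : Ei} {n : ℕ} (hc : c ∣ 3 ^ n) : c ≠ 0 := by
  rintro rfl
  have h30 : (3 : Ei) ≠ 0 := by decide
  exact pow_ne_zero n h30 (zero_dvd_iff.1 hc)

lemma pD_ne (hD : Dt π e) : pD π e ≠ 0 :=
  Finset.prod_ne_zero_iff.2 fun j _ => pow_ne_zero _ (hD.pq j).prime.ne_zero

lemma cD_ne {c : Ei} {n : ℕ} (hc : c ∣ 3 ^ n) (hD : Dt π e) : c * pD π e ≠ 0 :=
  mul_ne_zero (c_ne hc) (pD_ne hD)

lemma not_dvd_c {c : Ei} {n : ℕ} (hc : c ∣ 3 ^ n) (hD : Dt π e) (j : J) : ¬ π j ∣ c := by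
  intro h
  have h1 : π j ∣ (3 : Ei) := (hD.pq j).prime.dvd_of_dvd_pow (h.trans hc)
  have e3 : (3 : Ei) = lam ^ 2 * -1 := by rw [lam_sq]; ring
  rw [e3] at h1
  have h2 : π j ∣ lam ^ 2 := by
    rcases (hD.pq j).prime.dvd_or_dvd h1 with h | h
    · exact h
    · exact absurd (isUnit_of_dvd_unit h isUnit_neg_one) (hD.pq j).prime.not_unit
  have h3 := (hD.pq j).prime.dvd_of_dvd_pow h2
  exact not_assoc_lam (hD.pq j) (((hD.pq j).prime.dvd_prime_iff_associated prime_lam).1 h3)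

/-- `c D` is not a cube -/
lemma a_ne {c : Ei} {n : ℕ} (hc : c ∣ 3 ^ n) [Nonempty J] (hD : Dt π e) {u : QB}
    {a : GK i₀ → ZMod 3} (hT : Tw hi (c * pD π e) u a) : ∃ σ, a σ ≠ 0 := by
  by_contra hcon
  push Not at hcon
  have hb : Kc hi (c * pD π e) (fun σ => -a σ) :=
    kc_of hi (root_ne (hi := hi) (cD_ne hc hD) hT.cube) hT.cube hT.act
  obtain ⟨y, z, hy, hyz⟩ := cube_of_triv hb (fun σ => by rw [hcon σ, neg_zero])
  obtain ⟨j⟩ := ‹Nonempty J›
  have hp := (hD.pq j).prime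
  have hf : ∀ t : Ei, t ≠ 0 → FiniteMultiplicity (π j) t := fun t ht =>
    FiniteMultiplicity.of_prime_left hp ht
  have hz : z ≠ 0 := by
    rintro rfl
    rw [zero_pow three_ne_zero] at hyz
    exact mul_ne_zero (cD_ne hc hD) (pow_ne_zero 3 hy) hyz
  have hsplit : pD π e = π j ^ (e j).val * ∏ i ∈ Finset.univ.erase j, π i ^ (e i).val := by
    unfold pD
    rw [← Finset.mul_prod_erase Finset.univ _ (Finset.mem_univ j)]
  have hrest : ¬ π j ∣ ∏ i ∈ Finset.univ.erase j, π i ^ (e i).val := by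
    rw [hp.dvd_finsetProd_iff]
    rintro ⟨i, hi', hd⟩
    exact hD.nd i j (Finset.ne_of_mem_erase hi') (hp.dvd_of_dvd_pow hd)
  have hrest0 : ∏ i ∈ Finset.univ.erase j, π i ^ (e i).val ≠ 0 :=
    Finset.prod_ne_zero_iff.2 fun i _ => pow_ne_zero _ (hD.pq i).prime.ne_zero
  have mP : multiplicity (π j) (pD π e) = (e j).val := by
    rw [hsplit, multiplicity_mul hp (by rw [← hsplit]; exact hf _ (pD_ne hD)),
      multiplicity_pow_self_of_prime hp, multiplicity_eq_zero.2 hrest, add_zero]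
  have h1 := congrArg (multiplicity (π j)) hyz
  rw [multiplicity_mul hp (by rw [hyz]; exact hf _ (pow_ne_zero 3 hz)),
    multiplicity_mul hp (hf _ (cD_ne hc hD)), multiplicity_eq_zero.2 (not_dvd_c hc hD j), mP,
    (hf y hy).multiplicity_pow hp, (hf z hz).multiplicity_pow hp] at h1
  have h2 : (e j).val < 3 := ZMod.val_lt (e j)
  have h3 : (e j).val ≠ 0 := fun h => hD.e0 j ((ZMod.val_eq_zero (e j)).1 h)
  omega

/-- **task M15** -/
theorem t_TRFM : S_TRFM := by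
  intro c n hc K _ _ j J _ _ π e hD N hN hsel
  have hne : c * pD π e ≠ 0 := cD_ne hc hD
  obtain ⟨e', i₀, hi, u, a, Ψ, g, hdata⟩ := Pool.Agent.Y737.CTK.trf K j _ hne
  have hT := hdata.1
  have h1 : (SelH hi a).ncard = 3 * N := hsel i₀ hi u a hT
  have hc1 : (SelK (j (c * pD π e) : K)).ncard = (SelH hi a).ncard :=
    Pool.Agent.XL6.selK_card hne hdata
  refine ⟨hc1.trans h1, fun r hr => ?_⟩
  have hfin : (SelH hi a).Finite := Set.finite_of_ncard_ne_zero (by rw [h1]; omega)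
  exact (Pool.Agent.XL6.rk_le hne hdata).trans (Pool.Agent.XL6.rank_le (a_mul hne hT)
    (a_cont hne hT) (a_ne hc hD hT) hfin (by rw [h1, pow_succ]; omega))

end Pool.Agent.E8helper98.CTM
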